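import Pool.Agent.H50.FD.PIM

/-!
# MP_1f2761, k = 2: row VALS (values of strings)
-/

set_option autoImplicit false

open Finset

namespace Pool.Agent.H24.FD

namespace ValsH12

theorem digs_lt (B : ℕ) : ∀ (k : ℕ) (f : Fin k → ℕ), (∀ i, f i < B) →
    ∑ i : Fin k, B ^ (i : ℕ) * f i < B ^ k := by
  intro k
  induction k with
  | zero =>
    intro f _
    simp
  | succ k ih =>
    intro f hf
    rw [Fin.sum_univ_castSucc]
    have h1 := ih (fun i => f i.castSucc) (fun i => hf _)
    have h2 := hf (Fin.last k)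
    simp only [Fin.val_castSucc, Fin.val_last] at h1 ⊢
    have h3 : B ^ k * (f (Fin.last k) + 1) ≤ B ^ k * B := Nat.mul_le_mul_left _ h2
    rw [pow_succ]
    rw [mul_add, mul_one] at h3
    omega

theorem vA_lt {l : ℕ} (s : Fin l → Fin 3) : vA s < 2 ^ l := by
  unfold vA
  apply PimAux.bits_lt l
  intro i
  split_ifs <;> omega

theorem vN_le_vA {l : ℕ} (s : Fin l → Fin 3) : vN s ≤ vA s := by
  unfold vN vA
  refine Finset.sum_le_sum fun i _ => Nat.mul_le_mul_left _ ?_
  by_cases h : s i = 2
  · rw [if_pos h, if_neg (by rw [h]; decide)]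
  · rw [if_neg h]
    exact Nat.zero_le _

theorem s_inj {l : ℕ} (s s' : Fin l → Fin 3) (hN : vN s = vN s') (hA : vA s = vA s') :
    s = s' := by
  unfold vN at hN
  unfold vA at hA
  have h1 := PimAux.bits_inj l (fun i => if s i = 2 then 1 else 0)
    (fun i => if s' i = 2 then 1 else 0)
    (fun i => by split_ifs <;> omega) (fun i => by split_ifs <;> omega) hN
  have h2 := PimAux.bits_inj l (fun i => if s i = 0 then 0 else 1)
    (fun i => if s' i = 0 then 0 else 1)
    (fun i => by split_ifs <;> omega) (fun i => by split_ifs <;> omega) hA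
  funext i
  have a1 : (if s i = 2 then 1 else 0) = (if s' i = 2 then 1 else 0) := congrFun h1 i
  have a2 : (if s i = 0 then 0 else 1) = (if s' i = 0 then 0 else 1) := congrFun h2 i
  generalize s i = x at a1 a2
  generalize s' i = y at a1 a2
  revert a1 a2
  revert x y
  decide

end ValsH12

theorem vals : VALSStmt := by
  intro l k S
  have e : (2 : ℕ) ^ (l * k) = (2 ^ l) ^ k := pow_mul 2 l k
  refine ⟨?_, ?_, ?_, ?_⟩
  · rw [e]
    exact ValsH12.digs_lt (2 ^ l) k (fun i => vN (S i)) (fun i => PimAux.vN_lt (S i))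
  · rw [e]
    exact ValsH12.digs_lt (2 ^ l) k (fun i => vA (S i)) (fun i => ValsH12.vA_lt (S i))
  · unfold VN VA
    exact Finset.sum_le_sum fun i _ => Nat.mul_le_mul_left _ (ValsH12.vN_le_vA (S i))
  · intro S' hN hA
    have h1 := PimAux.digs_inj (2 ^ l) k (fun i => vN (S i)) (fun i => vN (S' i))
      (fun i => PimAux.vN_lt (S i)) (fun i => PimAux.vN_lt (S' i)) hN
    have h2 := PimAux.digs_inj (2 ^ l) k (fun i => vA (S i)) (fun i => vA (S' i))
      (fun i => ValsH12.vA_lt (S i)) (fun i => ValsH12.vA_lt (S' i)) hA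
    funext i
    exact ValsH12.s_inj (S i) (S' i) (congrFun h1 i) (congrFun h2 i)

end Pool.Agent.H24.FD
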